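import Pool.Agent.H817R5.EP.Stubs
import Pool.Agent.H305R2.MertensM

set_option autoImplicit false

open Finset Filter Topology

namespace Pool.Agent.H329R5.EP

lemma pow_atTop (γ : ℝ) (hγ : 0 < γ) :
    Tendsto (fun X : ℕ => (X : ℝ) ^ γ) atTop atTop :=
  (tendsto_rpow_atTop hγ).comp (tendsto_natCast_atTop_atTop (R := ℝ))

lemma floor_atTop (γ : ℝ) (hγ : 0 < γ) :
    Tendsto (fun X : ℕ => ⌊(X : ℝ) ^ γ⌋₊) atTop atTop :=
  tendsto_nat_floor_atTop.comp (pow_atTop γ hγ)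

lemma log_atTop : Tendsto (fun X : ℕ => Real.log (X : ℝ)) atTop atTop :=
  Real.tendsto_log_atTop.comp (tendsto_natCast_atTop_atTop (R := ℝ))

lemma ratio (γ : ℝ) (hγ : 0 < γ) :
    Tendsto (fun X : ℕ => Real.log (⌊(X : ℝ) ^ γ⌋₊ : ℝ) / Real.log X) atTop (𝓝 γ) := by
  have h1 : Tendsto (fun X : ℕ => γ - Real.log 2 / Real.log X) atTop (𝓝 γ) := by
    have := ((tendsto_const_nhds (x := Real.log 2)).div_atTop log_atTop).const_sub γ
    simpa using this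
  refine tendsto_of_tendsto_of_tendsto_of_le_of_le' h1 tendsto_const_nhds ?_ ?_
  · filter_upwards [log_atTop.eventually_gt_atTop 0, (pow_atTop γ hγ).eventually_ge_atTop 2,
      eventually_gt_atTop 0] with X hX h2 hX0
    have hXr : (0 : ℝ) < X := by exact_mod_cast hX0
    have h3 : (X : ℝ) ^ γ < ⌊(X : ℝ) ^ γ⌋₊ + 1 := Nat.lt_floor_add_one _
    have h4 : (X : ℝ) ^ γ / 2 ≤ (⌊(X : ℝ) ^ γ⌋₊ : ℝ) := by linarith
    have h5 := Real.log_le_log (by linarith) h4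
    rw [Real.log_div (by linarith) (by norm_num), Real.log_rpow hXr] at h5
    rw [le_div_iff₀ hX, sub_mul, div_mul_cancel₀ _ hX.ne']
    exact h5
  · filter_upwards [log_atTop.eventually_gt_atTop 0, (pow_atTop γ hγ).eventually_ge_atTop 2,
      eventually_gt_atTop 0] with X hX h2 hX0
    have hXr : (0 : ℝ) < X := by exact_mod_cast hX0
    have h3 : (X : ℝ) ^ γ < ⌊(X : ℝ) ^ γ⌋₊ + 1 := Nat.lt_floor_add_one _
    have h4 : (⌊(X : ℝ) ^ γ⌋₊ : ℝ) ≤ (X : ℝ) ^ γ := Nat.floor_le (by positivity)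
    have h5 := Real.log_le_log (by linarith) h4
    rw [Real.log_rpow hXr] at h5
    rw [div_le_iff₀ hX]
    exact h5

lemma loglog (γ : ℝ) (hγ : 0 < γ) :
    Tendsto (fun X : ℕ => Real.log (Real.log (⌊(X : ℝ) ^ γ⌋₊ : ℝ)) - Real.log (Real.log X))
      atTop (𝓝 (Real.log γ)) := by
  have h1 := (Real.continuousAt_log hγ.ne').tendsto.comp (ratio γ hγ)
  refine h1.congr' ?_
  filter_upwards [log_atTop.eventually_gt_atTop 0,
    (log_atTop.comp (floor_atTop γ hγ)).eventually_gt_atTop 0] with X hX h2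
  simp only [Function.comp] at h2 ⊢
  rw [Real.log_div h2.ne' hX.ne']

open Pool.Agent.H817R5.EP in
theorem mass : St_MASS := by
  intro β α η hβ hβα hη
  have hα : 0 < α := hβ.trans hβα
  obtain ⟨M, hM⟩ := Pool.Agent.H305R2.mertens_inv_tendsto
  have h1 := (hM.comp (floor_atTop α hα)).sub (hM.comp (floor_atTop β hβ))
  have h2 := (loglog α hα).sub (loglog β hβ)
  have h3 := h1.add h2
  have h4 : M - M + (Real.log α - Real.log β) < Real.log (α / β) + η := by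
    rw [Real.log_div hα.ne' hβ.ne']
    linarith
  obtain ⟨X1, hX1⟩ := eventually_atTop.mp ((h3.eventually_lt_const h4).and (eventually_ge_atTop 1))
  refine ⟨X1, fun X hX => ?_⟩
  obtain ⟨h5, h6⟩ := hX1 X hX
  simp only [Function.comp] at h5
  have hX1r : (1 : ℝ) ≤ X := by exact_mod_cast h6
  have h7 : ⌊(X : ℝ) ^ β⌋₊ ≤ ⌊(X : ℝ) ^ α⌋₊ :=
    Nat.floor_le_floor (Real.rpow_le_rpow_of_exponent_le hX1r hβα.le)
  have h8 : ∑ p ∈ (Ioc ⌊(X : ℝ) ^ β⌋₊ ⌊(X : ℝ) ^ α⌋₊).filter Nat.Prime, (1 : ℝ) / p +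
      ∑ p ∈ (Icc 1 ⌊(X : ℝ) ^ β⌋₊).filter Nat.Prime, (1 : ℝ) / p =
      ∑ p ∈ (Icc 1 ⌊(X : ℝ) ^ α⌋₊).filter Nat.Prime, (1 : ℝ) / p := by
    rw [← Finset.sum_union]
    · refine Finset.sum_congr ?_ fun _ _ => rfl
      ext p
      simp only [Finset.mem_union, Finset.mem_filter, Finset.mem_Ioc, Finset.mem_Icc]
      constructor
      · rintro (⟨⟨a, b⟩, c⟩ | ⟨⟨a, b⟩, c⟩)
        · exact ⟨⟨c.one_lt.le, b⟩, c⟩
        · exact ⟨⟨a, b.trans h7⟩, c⟩
      · rintro ⟨⟨a, b⟩, c⟩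
        by_cases h : p ≤ ⌊(X : ℝ) ^ β⌋₊
        · exact Or.inr ⟨⟨a, h⟩, c⟩
        · exact Or.inl ⟨⟨by omega, b⟩, c⟩
    · rw [Finset.disjoint_left]
      intro p hp hp'
      simp only [Finset.mem_filter, Finset.mem_Ioc, Finset.mem_Icc] at hp hp'
      omega
  linarith

end Pool.Agent.H329R5.EP
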